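import Pool.Agent.H753R3.SC.Stmts

/-! Statements for the project H753-SC (MP_dd23d5_gt, partial: traces smaller than the
pseudo-intersection number). -/

set_option autoImplicit false

namespace Pool.Agent.H753R3.SC

open Set

/-- The pseudo-intersection number `𝔭`: the least cardinality of a family of sets of natural
numbers all of whose finite intersections are infinite and which has no infinite
pseudo-intersection. -/
noncomputable def pnum : Cardinal.{0} :=
  sInf {c | ∃ 𝓕 : Set (Set ℕ), Cardinal.mk 𝓕 = c ∧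
    (∀ S : Finset (Set ℕ), (∀ s ∈ S, s ∈ 𝓕) → (⋂ s ∈ S, s).Infinite) ∧
    ∀ Z : Set ℕ, Z.Infinite → ∃ s ∈ 𝓕, (Z \ s).Infinite}

/-- TASK Q. -/
def TaskQ : Prop := Cardinal.aleph0 < pnum

/-- TASK N.  If no finite subset of the compact set `L` has all of `K` in its upper closure, then
already countably many points of `K` witness this. -/
def TaskN : Prop :=
  ∀ (P : Type) [PartialOrder P] [TopologicalSpace P] [Topology.IsScott P Set.univ]
    (K L : Set P), IsCompact L →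
    (∀ H : Finset P, (∀ h ∈ H, h ∈ L) → ∃ x ∈ K, ∀ h ∈ H, ¬ h ≤ x) →
    ∃ y : ℕ → P, (∀ k, y k ∈ K) ∧
      ∀ H : Finset P, (∀ h ∈ H, h ∈ L) → ∃ k, ∀ h ∈ H, ¬ h ≤ y k

/-- TASK B3. -/
def TaskB3 : Prop :=
  ∀ (P : Type) [PartialOrder P] [TopologicalSpace P] [Topology.IsScott P Set.univ],
    (∀ d : Set P, d.Nonempty → DirectedOn (· ≤ ·) d → ∃ x, IsLUB d x) →
    LocallyCompactSpace P →
    ∀ (B : Set P) (μ : Cardinal.{0}), μ < pnum →
    (∀ x, Cardinal.mk (B ∩ Set.Iic x : Set P) ≤ μ) →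
    (∀ V : Set P, IsOpen V → ∀ x ∈ V, ∃ b ∈ B ∩ V, b ≤ x) →
    ∀ (K V : Set P), IsCompact K → IsOpen V → K ⊆ V →
    ∃ H : Finset P, (∀ h ∈ H, h ∈ V) ∧ ∀ x ∈ K, ∃ h ∈ H, h ≤ x

end Pool.Agent.H753R3.SC
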