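import Pool.Agent.H753R3.SC.Stmts4

set_option autoImplicit false

namespace Pool.Agent.H753R3.SC

open Set Topology

theorem taskB4 (hA : TaskA) (hN : TaskN) (hQ : TaskQ)
    (P : Type) [PartialOrder P] [TopologicalSpace P] [Topology.IsScott P Set.univ]
    (hd : ∀ d : Set P, d.Nonempty → DirectedOn (· ≤ ·) d → ∃ x, IsLUB d x)
    [LocallyCompactSpace P]
    (hgen : ∀ U : Set P, IsOpen U → ∀ x ∈ U, ∃ E ⊆ U, ∃ μ < pnum,
      x ∈ interior {y : P | ∃ e ∈ E, e ≤ y} ∧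
      ∀ z, Cardinal.mk (E ∩ Set.Iic z : Set P) ≤ μ)
    (K V : Set P) (hK : IsCompact K) (hV : IsOpen V) (hKV : K ⊆ V) :
    ∃ H : Finset P, (∀ h ∈ H, h ∈ V) ∧ ∀ x ∈ K, ∃ h ∈ H, h ≤ x := by
  classical
  by_contra hcon
  push Not at hcon
  obtain ⟨L1, hL1c, hKL1, hL1V⟩ := exists_compact_between hK hV hKV
  obtain ⟨L2, hL2c, hL1L2, hL2V⟩ := exists_compact_between hL1c hV hL1V
  have hp0 : (0 : Cardinal) < pnum := lt_trans Cardinal.aleph0_pos hQ
  obtain ⟨E, hE, μ, hμ, hLE, hEz⟩ : ∃ E ⊆ interior L2, ∃ μ < pnum,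
      (∀ y ∈ L1, ∃ e ∈ E, e ≤ y) ∧ ∀ z, Cardinal.mk (E ∩ Set.Iic z : Set P) ≤ μ := by
    refine hL1c.induction_on (p := fun s => ∃ E ⊆ interior L2, ∃ μ < pnum,
      (∀ y ∈ s, ∃ e ∈ E, e ≤ y) ∧ ∀ z, Cardinal.mk (E ∩ Set.Iic z : Set P) ≤ μ) ?_ ?_ ?_ ?_
    · exact ⟨∅, empty_subset _, 0, hp0, fun y hy => absurd hy (notMem_empty y),
        fun z => by simp⟩
    · rintro s t hst ⟨E, h1, μ, h2, h3, h4⟩
      exact ⟨E, h1, μ, h2, fun y hy => h3 y (hst hy), h4⟩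
    · rintro s t ⟨E, h1, μ, h2, h3, h4⟩ ⟨E', h1', μ', h2', h3', h4'⟩
      refine ⟨E ∪ E', union_subset h1 h1', μ + μ', Cardinal.add_lt_of_lt hQ.le h2 h2', ?_, ?_⟩
      · rintro y (hy | hy)
        · obtain ⟨e, he, hey⟩ := h3 y hy
          exact ⟨e, Or.inl he, hey⟩
        · obtain ⟨e, he, hey⟩ := h3' y hy
          exact ⟨e, Or.inr he, hey⟩
      · intro z
        rw [union_inter_distrib_right]
        exact (Cardinal.mk_union_le _ _).trans (add_le_add (h4 z) (h4' z))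
    · intro x hx
      obtain ⟨E, h1, μ, h2, h3, h4⟩ := hgen (interior L2) isOpen_interior x (hL1L2 hx)
      refine ⟨_, mem_nhdsWithin_of_mem_nhds (mem_interior_iff_mem_nhds.mp h3), E, h1, μ, h2,
        fun y hy => hy, h4⟩
  obtain ⟨y, hyK, hy⟩ := hN P K L2 hL2c (fun H hH => hcon H fun h hh => hL2V (hH h hh))
  set FF : Set (Set ℕ) := (fun e => {k | ¬ e ≤ y k}) '' (⋃ k, E ∩ Set.Iic (y k)) with hFF
  have hcard : Cardinal.mk FF < pnum := by
    refine lt_of_le_of_lt Cardinal.mk_image_le ?_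
    refine lt_of_le_of_lt (Cardinal.mk_iUnion_le _) ?_
    refine Cardinal.mul_lt_of_lt hQ.le ?_ ?_
    · rw [Cardinal.mk_nat]
      exact hQ
    · exact lt_of_le_of_lt (ciSup_le' fun k => hEz (y k)) hμ
  have hL2y : ∀ k, y k ∈ L2 := fun k => interior_subset (hL1L2 (interior_subset (hKL1 (hyK k))))
  have hSF : ∀ S : Finset (Set ℕ), (∀ s ∈ S, s ∈ FF) → (⋂ s ∈ S, s).Infinite := by
    intro S hS hfin
    have hch : ∀ s : Set ℕ, ∃ e : P, s ∈ S → e ∈ E ∧ {k | ¬ e ≤ y k} = s := by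
      intro s
      by_cases hs : s ∈ S
      · obtain ⟨e, he, hes⟩ := hS s hs
        rw [mem_iUnion] at he
        obtain ⟨k, hk⟩ := he
        exact ⟨e, fun _ => ⟨hk.1, hes⟩⟩
      · exact ⟨y 0, fun h => absurd h hs⟩
    choose e he using hch
    obtain ⟨k, hk⟩ := hy (S.image e ∪ hfin.toFinset.image y) (by
      intro h hh
      rw [Finset.mem_union, Finset.mem_image, Finset.mem_image] at hh
      rcases hh with ⟨s, hs, rfl⟩ | ⟨k, _, rfl⟩
      · exact interior_subset (hE (he s hs).1)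
      · exact hL2y k)
    have hkR : k ∈ ⋂ s ∈ S, s := by
      rw [mem_iInter₂]
      intro s hs
      rw [← (he s hs).2]
      exact hk _ (Finset.mem_union_left _ (Finset.mem_image_of_mem e hs))
    exact hk (y k) (Finset.mem_union_right _
      (Finset.mem_image_of_mem y (hfin.mem_toFinset.mpr hkR))) le_rfl
  have hnot := notMem_of_lt_csInf hcard (OrderBot.bddBelow _)
  have hZ : ∃ Z : Set ℕ, Z.Infinite ∧ ∀ s ∈ FF, (Z \ s).Finite := by
    by_contra hno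
    push Not at hno
    exact hnot ⟨FF, rfl, hSF, fun Z hZ => by
      obtain ⟨s, hs, h⟩ := hno Z hZ
      exact ⟨s, hs, h⟩⟩
  obtain ⟨Z, hZi, hZs⟩ := hZ
  have f := hZi.natEmbedding
  obtain ⟨c, hc, hcy⟩ := hA P hd K (interior L1) hK isOpen_interior hKL1 (fun n => y (f n))
    (fun n => hyK _)
  obtain ⟨e, he, hec⟩ := hLE c (interior_subset hc)
  have hmem : {k | ¬ e ≤ y k} ∈ FF := by
    obtain ⟨n, _, hn⟩ := hcy 0
    exact ⟨e, mem_iUnion.mpr ⟨_, he, hec.trans hn⟩, rfl⟩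
  have hfin := hZs _ hmem
  have hinf : {n : ℕ | e ≤ y (f n)}.Infinite := by
    rw [Set.infinite_iff_exists_gt] 
    intro N
    obtain ⟨n, hn, hn2⟩ := hcy (N + 1)
    exact ⟨n, hec.trans hn2, hn⟩
  refine hinf ?_
  refine Set.Finite.of_finite_image (f := fun n => (f n : ℕ)) (hfin.subset ?_) ?_
  · rintro _ ⟨n, hn, rfl⟩
    refine ⟨(f n).2, fun h => h hn⟩
  · intro a _ b _ h
    exact f.injective (Subtype.ext h)

end Pool.Agent.H753R3.SC
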