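import Pool.Agent.H753R3.SC.Stmts2

set_option autoImplicit false

namespace Pool.Agent.H753R3.SC

open Set Topology

theorem taskC2' (hR : TaskR) : TaskC2 := by
  classical
  intro P _ _ _ hd hlc hfin
  refine ⟨⟨?_⟩, inferInstance⟩
  intro A hirr hA
  have hlow : IsLowerSet A := (Topology.IsScott.isClosed_iff_isLowerSet_and_dirSupClosed.1 hA).1
  have loc : ∀ U : Set P, IsOpen U → ∀ x ∈ U, ∃ H : Finset P, (∀ h ∈ H, h ∈ U) ∧
      x ∈ interior {y : P | ∃ h ∈ H, h ≤ y} := by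
    intro U hU x hx
    obtain ⟨K, hK, hKU, hKc⟩ := hlc.local_compact_nhds x U (hU.mem_nhds hx)
    obtain ⟨H, hH, hHK⟩ := hfin K U hKc hU hKU
    refine ⟨H, hH, ?_⟩
    rw [mem_interior_iff_mem_nhds]
    exact Filter.mem_of_superset hK fun y hy => hHK y hy
  let ι := {H : Finset P // (A ∩ interior {y : P | ∃ h ∈ H, h ≤ y}).Nonempty}
  let F : ι → Set P := fun H => {h | h ∈ H.1 ∧ h ∈ A}
  have hι : Nonempty ι := by
    obtain ⟨x, hx⟩ := hirr.1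
    obtain ⟨H, -, hH⟩ := loc univ isOpen_univ x (mem_univ x)
    exact ⟨⟨H, x, hx, hH⟩⟩
  have hF1 : ∀ i, (F i).Finite := fun i => i.1.finite_toSet.subset fun h hh => hh.1
  have hF2 : ∀ i, (F i).Nonempty := by
    rintro ⟨H, x, hx, hxH⟩
    obtain ⟨h, hh, hhx⟩ := interior_subset hxH
    exact ⟨h, hh, hlow hhx hx⟩
  obtain ⟨D, hDne, hDdir, hDF, hDm⟩ := hR P ι F hF1 hF2 (by
    rintro ⟨H, hH⟩ ⟨G, hG⟩
    obtain ⟨x, hx, hxU⟩ := hirr.2 _ _ isOpen_interior isOpen_interior hH hG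
    obtain ⟨H', h1, h2⟩ := loc _ (isOpen_interior.inter isOpen_interior) x hxU
    refine ⟨⟨H', x, hx, h2⟩, fun z hz => ?_⟩
    obtain ⟨h, hh, hhz⟩ := interior_subset (h1 z hz.1).1
    obtain ⟨g, hg, hgz⟩ := interior_subset (h1 z hz.1).2
    exact ⟨⟨h, ⟨hh, hlow hhz hz.2⟩, hhz⟩, ⟨g, ⟨hg, hlow hgz hz.2⟩, hgz⟩⟩)
  obtain ⟨d, hdlub⟩ := hd D hDne hDdir
  have hDA : D ⊆ A := fun z hz => by
    obtain ⟨i, hi⟩ := hDF z hz
    exact hi.2
  have hdA : d ∈ A := (Topology.IsScott.isClosed_iff_isLowerSet_and_dirSupClosed.1 hA).2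
    hDA hDne hDdir hdlub
  have hdU : ∀ U : Set P, IsOpen U → (A ∩ U).Nonempty → d ∈ U := by
    rintro U hU ⟨x, hx, hxU⟩
    obtain ⟨H, h1, h2⟩ := loc U hU x hxU
    obtain ⟨e, he, heF⟩ := hDm ⟨H, x, hx, h2⟩
    exact (Topology.IsScott.isUpperSet_of_isOpen (D := Set.univ) hU) (hdlub.1 he) (h1 e heF.1)
  refine ⟨d, ?_⟩
  show closure {d} = A
  rw [Topology.IsScott.closure_singleton]
  refine Subset.antisymm (fun y hy => hlow hy hdA) fun y hy => ?_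
  by_contra hyd
  exact hdU (Iic d)ᶜ isClosed_Iic.isOpen_compl ⟨y, hy, hyd⟩ (mem_Iic.mpr le_rfl)

end Pool.Agent.H753R3.SC
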