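import Pool.Agent.H753R3.SC.Stmts2
import Pool.Agent.H753R3.SC.B4

set_option autoImplicit false

namespace Pool.Agent.H753R3.SC

open Set Topology

theorem final2 (hA : TaskA) (hN : TaskN) (hQ : TaskQ) (hC2 : TaskC2)
    (P : Type) [PartialOrder P] [TopologicalSpace P] [Topology.IsScott P Set.univ]
    (hd : ∀ d : Set P, d.Nonempty → DirectedOn (· ≤ ·) d → ∃ x, IsLUB d x)
    [hP : LocallyCompactSpace P]
    (hgen : ∀ U : Set P, IsOpen U → ∀ x ∈ U, ∃ E ⊆ U, ∃ μ : Cardinal.{0},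
      (μ ≤ Cardinal.aleph0 ∨ μ < pnum) ∧ x ∈ interior {y : P | ∃ e ∈ E, e ≤ y} ∧
      ∀ z, Cardinal.mk (E ∩ Set.Iic z : Set P) ≤ μ) :
    QuasiSober P ∧ T0Space P ∧ ∀ U : Set P, IsOpen U → ∀ x ∈ U,
      ∃ H ⊆ U, H.Finite ∧ x ∈ interior {y : P | ∃ h ∈ H, h ≤ y} := by
  have hgen' : ∀ U : Set P, IsOpen U → ∀ x ∈ U, ∃ E ⊆ U, ∃ μ < pnum,
      x ∈ interior {y : P | ∃ e ∈ E, e ≤ y} ∧
      ∀ z, Cardinal.mk (E ∩ Set.Iic z : Set P) ≤ μ := by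
    intro U hU x hx
    obtain ⟨E, hE, μ, hμ, h⟩ := hgen U hU x hx
    refine ⟨E, hE, μ, ?_, h⟩
    rcases hμ with h | h
    · exact lt_of_le_of_lt h hQ
    · exact h
  have hfin := taskB4 hA hN hQ P hd hgen'
  obtain ⟨h1, h2⟩ := hC2 P hd hP hfin
  refine ⟨h1, h2, fun V hV x hx => ?_⟩
  obtain ⟨K, hK, hKV, hKc⟩ := hP.local_compact_nhds x V (hV.mem_nhds hx)
  obtain ⟨H, hH, hHK⟩ := hfin K V hKc hV hKV
  refine ⟨H, fun h hh => hH h hh, H.finite_toSet, ?_⟩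
  rw [mem_interior_iff_mem_nhds]
  exact Filter.mem_of_superset hK fun y hy => hHK y hy

end Pool.Agent.H753R3.SC
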