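import Pool.Agent.H753R3.SC.Stmts4

set_option autoImplicit false

namespace Pool.Agent.H753R3.SC

open Set Topology

theorem taskN' : TaskN := by
  classical
  intro P _ _ _ K L hL hK
  obtain ⟨x0, hx0, -⟩ := hK ∅ (by simp)
  -- for each `n` a finite subset of `K` not covered by `n` elements of `L`
  have key : ∀ n : ℕ, ∃ F : Finset P, (∀ x ∈ F, x ∈ K) ∧
      ∀ h : Fin n → P, (∀ i, h i ∈ L) → ∃ x ∈ F, ∀ i, ¬ h i ≤ x := by
    intro n
    by_contra hcon
    push Not at hcon
    have hcomp : IsCompact (Set.pi univ (fun _ : Fin n => L)) := isCompact_univ_pi fun _ => hL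
    have hne : ((Set.pi univ (fun _ : Fin n => L)) ∩
        ⋂ x : K, {h : Fin n → P | ∃ i, h i ≤ x.1}).Nonempty := by
      refine hcomp.inter_iInter_nonempty _ ?_ ?_
      · intro x
        have : {h : Fin n → P | ∃ i, h i ≤ x.1} = ⋃ i, (fun h : Fin n → P => h i) ⁻¹' Iic x.1 := by
          ext h
          simp
        rw [this]
        exact isClosed_iUnion_of_finite fun i => isClosed_Iic.preimage (continuous_apply i)
      · intro S
        obtain ⟨h, hh, hS⟩ := hcon (S.image Subtype.val) (by
          intro x hx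
          rw [Finset.mem_image] at hx
          obtain ⟨z, _, rfl⟩ := hx
          exact z.2)
        refine ⟨h, fun i _ => hh i, ?_⟩
        rw [mem_iInter₂]
        intro x hx
        exact hS x.1 (Finset.mem_image_of_mem _ hx)
    obtain ⟨h, h1, h2⟩ := hne
    obtain ⟨x, hx, hx2⟩ := hK (Finset.univ.image h) (by
      intro z hz
      rw [Finset.mem_image] at hz
      obtain ⟨i, _, rfl⟩ := hz
      exact h1 i (mem_univ i))
    rw [mem_iInter] at h2
    obtain ⟨i, hi⟩ := h2 ⟨x, hx⟩
    exact hx2 (h i) (Finset.mem_image_of_mem h (Finset.mem_univ i)) hi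
  choose F hF1 hF2 using key
  have hc : (insert x0 (⋃ n, (F n : Set P))).Countable :=
    (countable_iUnion fun n => (F n).countable_toSet).insert x0
  obtain ⟨y, hy⟩ := hc.exists_eq_range ⟨x0, mem_insert _ _⟩
  refine ⟨y, fun k => ?_, fun H hH => ?_⟩
  · have : y k ∈ insert x0 (⋃ n, (F n : Set P)) := by
      rw [hy]
      exact mem_range_self k
    rcases this with h | h
    · rw [h]
      exact hx0
    · rw [mem_iUnion] at h
      obtain ⟨n, hn⟩ := h
      exact hF1 n _ hn
  · obtain ⟨x, hx, hx2⟩ := hF2 H.card (fun i => (H.equivFin.symm i).1)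
      (fun i => hH _ (H.equivFin.symm i).2)
    have : x ∈ insert x0 (⋃ n, (F n : Set P)) := Or.inr (mem_iUnion.mpr ⟨_, hx⟩)
    rw [hy] at this
    obtain ⟨k, rfl⟩ := this
    refine ⟨k, fun h hh hle => ?_⟩
    refine hx2 (H.equivFin ⟨h, hh⟩) ?_
    simpa using hle

end Pool.Agent.H753R3.SC
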