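import Pool.Agent.H753R3.SC.Stmts4

set_option autoImplicit false

namespace Pool.Agent.H753R3.SC

open Set

theorem taskQ' : TaskQ := by
  classical
  have hne : {c : Cardinal.{0} | ∃ 𝓕 : Set (Set ℕ), Cardinal.mk 𝓕 = c ∧
      (∀ S : Finset (Set ℕ), (∀ s ∈ S, s ∈ 𝓕) → (⋂ s ∈ S, s).Infinite) ∧
      ∀ Z : Set ℕ, Z.Infinite → ∃ s ∈ 𝓕, (Z \ s).Infinite}.Nonempty := by
    refine ⟨_, {s | s ∈ Filter.hyperfilter ℕ}, rfl, ?_, ?_⟩
    · intro S hS hfin
      have h1 : (⋂ s ∈ S, s) ∈ (Filter.hyperfilter ℕ : Filter ℕ) :=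
        (Filter.biInter_finset_mem S).mpr fun s hs => hS s hs
      exact Filter.notMem_hyperfilter_of_finite hfin h1
    · intro Z hZ
      have f := hZ.natEmbedding
      set Z1 : Set ℕ := range (fun n => ((f (2 * n) : Z) : ℕ)) with hZ1
      have hinj : Function.Injective (fun n => ((f n : Z) : ℕ)) := fun a b h =>
        f.injective (Subtype.ext h)
      have h1 : Z1.Infinite := infinite_range_of_injective fun a b h => by
        have := hinj h
        omega
      have h2 : (Z \ Z1).Infinite := by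
        refine (infinite_range_of_injective (f := fun n => ((f (2 * n + 1) : Z) : ℕ))
          fun a b h => ?_).mono ?_
        · have := hinj h
          omega
        · rintro _ ⟨n, rfl⟩
          refine ⟨(f (2 * n + 1)).2, ?_⟩
          rintro ⟨m, hm⟩
          have := hinj hm
          omega
      have hsub : Z1 ⊆ Z := by
        rintro _ ⟨n, rfl⟩
        exact (f (2 * n)).2
      rcases (Filter.hyperfilter ℕ).mem_or_compl_mem Z1 with h | h
      · exact ⟨Z1, h, h2⟩
      · refine ⟨Z1ᶜ, h, ?_⟩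
        rw [sdiff_compl, inter_eq_right.mpr hsub]
        exact h1
  obtain ⟨𝓕, hF1, hF2, hF3⟩ := csInf_mem hne
  by_contra hcon
  unfold TaskQ at hcon
  rw [not_lt] at hcon
  have hc : 𝓕.Countable := by
    rw [← Cardinal.le_aleph0_iff_set_countable, hF1]
    exact hcon
  rcases 𝓕.eq_empty_or_nonempty with h0 | h0
  · obtain ⟨s, hs, -⟩ := hF3 univ infinite_univ
    rw [h0] at hs
    exact hs
  · obtain ⟨s, hs⟩ := hc.exists_eq_range h0
    have hT : ∀ n, (⋂ t ∈ (Finset.range (n + 1)).image s, t).Infinite := fun n =>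
      hF2 _ fun t ht => by
        rw [Finset.mem_image] at ht
        obtain ⟨i, _, rfl⟩ := ht
        rw [hs]
        exact mem_range_self i
    have hg : ∀ n a : ℕ, ∃ b, b ∈ (⋂ t ∈ (Finset.range (n + 1)).image s, t) ∧ a < b := by
      intro n a
      obtain ⟨b, hb, hab⟩ := (hT n).exists_gt a
      exact ⟨b, hb, hab⟩
    choose g hg1 hg2 using hg
    let z : ℕ → ℕ := fun n => Nat.rec (g 0 0) (fun n a => g (n + 1) a) n
    have hz0 : z 0 = g 0 0 := rfl
    have hzs : ∀ n, z (n + 1) = g (n + 1) (z n) := fun n => rfl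
    have hzm : ∀ n, z n ∈ ⋂ t ∈ (Finset.range (n + 1)).image s, t := by
      intro n
      cases n with
      | zero => exact hg1 0 0
      | succ n => exact hg1 (n + 1) (z n)
    have hmono : StrictMono z := strictMono_nat_of_lt_succ fun n => hg2 (n + 1) (z n)
    obtain ⟨t, ht, htZ⟩ := hF3 (range z) (infinite_range_of_injective hmono.injective)
    rw [hs] at ht
    obtain ⟨i, rfl⟩ := ht
    refine htZ (((finite_Iio i).image z).subset ?_)
    rintro _ ⟨⟨n, rfl⟩, hn⟩
    refine ⟨n, ?_, rfl⟩
    by_contra hni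
    rw [mem_Iio, not_lt] at hni
    refine hn ?_
    have := hzm n
    rw [mem_iInter₂] at this
    exact this (s i) (Finset.mem_image_of_mem s (Finset.mem_range.mpr (by omega)))

end Pool.Agent.H753R3.SC
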