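import Pool.Agent.H753R3.SC.Stmts2

set_option autoImplicit false

namespace Pool.Agent.H753R3.SC

open Set

theorem taskR' : TaskR := by
  classical
  intro P ι _ _ F hfin hne hdir
  -- `Bel i j`: every element of `F j` is above an element of `F i`
  let Bel : ι → ι → Prop := fun i j => ∀ x ∈ F j, ∃ y ∈ F i, y ≤ x
  let EE : Set (Set P) := {E | (∀ i, (E ∩ F i).Nonempty) ∧
    ∀ i j, Bel i j → ∀ x ∈ E ∩ F j, ∃ y ∈ E ∩ F i, y ≤ x}
  have hU : (univ : Set P) ∈ EE := by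
    refine ⟨fun i => by simpa using hne i, fun i j h x hx => ?_⟩
    obtain ⟨y, hy, hyx⟩ := h x hx.2
    exact ⟨y, ⟨mem_univ _, hy⟩, hyx⟩
  obtain ⟨M, -, hM⟩ := zorn_superset_nonempty EE (by
    intro c hc hchain hcne
    -- the trace of the chain on a finite set is attained
    have hatt : ∀ S : Set P, S.Finite → ∃ E ∈ c, E ∩ S = (⋂₀ c) ∩ S := by
      intro S hS
      have hch : ∀ x : P, ∃ E ∈ c, x ∈ ⋂₀ c ∨ x ∉ E := by
        intro x
        by_cases hx : x ∈ ⋂₀ c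
        · obtain ⟨E, hE⟩ := hcne
          exact ⟨E, hE, Or.inl hx⟩
        · rw [mem_sInter] at hx
          push Not at hx
          obtain ⟨E, hE, hxE⟩ := hx
          exact ⟨E, hE, Or.inr hxE⟩
      choose g hg hg2 using hch
      have hmin : ∃ E ∈ c, ∀ x ∈ S, E ⊆ g x := by
        refine hS.induction_on_subset (motive := fun S _ => ∃ E ∈ c, ∀ x ∈ S, E ⊆ g x) _ ?_ ?_
        · obtain ⟨E, hE⟩ := hcne
          exact ⟨E, hE, fun x hx => absurd hx (notMem_empty x)⟩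
        · rintro a T _ _ _ ⟨E, hE, hE2⟩
          rcases hchain.total hE (hg a) with h | h
          · exact ⟨E, hE, fun x hx => by
              rcases hx with rfl | hx
              · exact h
              · exact hE2 x hx⟩
          · exact ⟨g a, hg a, fun x hx => by
              rcases hx with rfl | hx
              · exact subset_rfl
              · exact h.trans (hE2 x hx)⟩
      obtain ⟨E, hE, hE2⟩ := hmin
      refine ⟨E, hE, ?_⟩
      ext x
      constructor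
      · rintro ⟨h1, h2⟩
        refine ⟨?_, h2⟩
        rcases hg2 x with h | h
        · exact h
        · exact absurd (hE2 x h2 h1) h
      · rintro ⟨h1, h2⟩
        exact ⟨h1 E hE, h2⟩
    refine ⟨⋂₀ c, ⟨fun i => ?_, fun i j hij x hx => ?_⟩, fun s hs => sInter_subset_of_mem hs⟩
    · obtain ⟨E, hE, hE2⟩ := hatt (F i) (hfin i)
      rw [← hE2]
      exact (hc hE).1 i
    · obtain ⟨E, hE, hE2⟩ := hatt (F i) (hfin i)
      obtain ⟨y, hy, hyx⟩ := (hc hE).2 i j hij x ⟨hx.1 E hE, hx.2⟩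
      rw [hE2] at hy
      exact ⟨y, hy, hyx⟩) univ hU
  have hME : M ∈ EE := hM.prop
  -- every element of `M` in `F i` is below all of `M ∩ F j` for some `j`
  have claim : ∀ e ∈ M, ∀ i, e ∈ F i → ∃ j, ∀ x ∈ M ∩ F j, e ≤ x := by
    intro e he i hei
    by_contra hcon
    push Not at hcon
    have hE' : M \ Ici e ∈ EE := by
      refine ⟨fun j => ?_, fun a b hab x hx => ?_⟩
      · obtain ⟨k, hk⟩ := hdir j j
        obtain ⟨x, hx, hex⟩ := hcon k
        obtain ⟨y, hy, hyx⟩ := hME.2 j k (fun z hz => (hk z hz).1) x hx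
        exact ⟨y, ⟨hy.1, fun h => hex (le_trans h hyx)⟩, hy.2⟩
      · obtain ⟨y, hy, hyx⟩ := hME.2 a b hab x ⟨hx.1.1, hx.2⟩
        exact ⟨y, ⟨⟨hy.1, fun h => hx.1.2 (le_trans h hyx)⟩, hy.2⟩, hyx⟩
    have := hM.le_of_le hE' sdiff_subset
    exact (this he).2 (le_refl e)
  refine ⟨{d | d ∈ M ∧ ∃ i, d ∈ F i}, ?_, ?_, fun d hd => hd.2, fun i => ?_⟩
  · obtain ⟨i⟩ := (inferInstance : Nonempty ι)
    obtain ⟨x, hx, hx2⟩ := hME.1 i
    exact ⟨x, hx, i, hx2⟩
  · rintro a ⟨haM, i, hai⟩ b ⟨hbM, j, hbj⟩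
    obtain ⟨i', hi'⟩ := claim a haM i hai
    obtain ⟨j', hj'⟩ := claim b hbM j hbj
    obtain ⟨k, hk⟩ := hdir i' j'
    obtain ⟨x, hxM, hxk⟩ := hME.1 k
    obtain ⟨y, hy, hyx⟩ := hME.2 i' k (fun z hz => (hk z hz).1) x ⟨hxM, hxk⟩
    obtain ⟨y', hy', hyx'⟩ := hME.2 j' k (fun z hz => (hk z hz).2) x ⟨hxM, hxk⟩
    exact ⟨x, ⟨hxM, k, hxk⟩, (hi' y hy).trans hyx, (hj' y' hy').trans hyx'⟩
  · obtain ⟨x, hx, hx2⟩ := hME.1 i
    exact ⟨x, ⟨hx, i, hx2⟩, hx2⟩

end Pool.Agent.H753R3.SC
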