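import Mathlib

/-! Statements for the project H753-SC (MP_dd23d5_gt, partial: countable dcpos). -/

set_option autoImplicit false

namespace Pool.Agent.H753R3.SC

open Set

/-- TASK A.  In a dcpo with the Scott topology: `K` compact, `V` open, `K ⊆ V`.  Every sequence in
`K` has infinitely many terms above one element of `V`. -/
def TaskA : Prop :=
  ∀ (P : Type) [PartialOrder P] [TopologicalSpace P] [Topology.IsScott P Set.univ],
    (∀ d : Set P, d.Nonempty → DirectedOn (· ≤ ·) d → ∃ x, IsLUB d x) →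
    ∀ (K V : Set P), IsCompact K → IsOpen V → K ⊆ V →
    ∀ z : ℕ → P, (∀ n, z n ∈ K) → ∃ c ∈ V, ∀ N, ∃ n, N ≤ n ∧ c ≤ z n

/-- TASK B.  If `B` is countable and every open set is the upper closure of its points in `B`,
then every compact subset of an open set `V` lies in the upper closure of a finite subset of
`B ∩ V`. -/
def TaskB : Prop :=
  ∀ (P : Type) [PartialOrder P] [TopologicalSpace P] [Topology.IsScott P Set.univ],
    (∀ d : Set P, d.Nonempty → DirectedOn (· ≤ ·) d → ∃ x, IsLUB d x) →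
    ∀ B : Set P, B.Countable → (∀ V : Set P, IsOpen V → ∀ x ∈ V, ∃ b ∈ B ∩ V, b ≤ x) →
    ∀ (K V : Set P), IsCompact K → IsOpen V → K ⊆ V →
    ∃ H : Finset P, (∀ h ∈ H, h ∈ B ∩ V) ∧ ∀ x ∈ K, ∃ h ∈ H, h ≤ x

/-- TASK C.  From the conclusion of TASK B to sobriety. -/
def TaskC : Prop :=
  ∀ (P : Type) [PartialOrder P] [TopologicalSpace P] [Topology.IsScott P Set.univ],
    (∀ d : Set P, d.Nonempty → DirectedOn (· ≤ ·) d → ∃ x, IsLUB d x) →
    LocallyCompactSpace P →
    ∀ B : Set P, B.Countable → (∀ V : Set P, IsOpen V → ∀ x ∈ V, ∃ b ∈ B ∩ V, b ≤ x) →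
    (∀ (K V : Set P), IsCompact K → IsOpen V → K ⊆ V →
      ∃ H : Finset P, (∀ h ∈ H, h ∈ B ∩ V) ∧ ∀ x ∈ K, ∃ h ∈ H, h ≤ x) →
    QuasiSober P ∧ T0Space P

end Pool.Agent.H753R3.SC
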