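import Mathlib

/-! Statements for the project H753-SC (MP_dd23d5_gt, partial: countable traces). -/

set_option autoImplicit false

namespace Pool.Agent.H753R3.SC

open Set

/-- TASK R (Rudin's lemma).  A family of nonempty finite sets, directed for the Smyth preorder, has a
directed selection. -/
def TaskR : Prop :=
  ∀ (P ι : Type) [PartialOrder P] [Nonempty ι] (F : ι → Set P), (∀ i, (F i).Finite) →
    (∀ i, (F i).Nonempty) →
    (∀ i j, ∃ k, ∀ x ∈ F k, (∃ y ∈ F i, y ≤ x) ∧ (∃ y ∈ F j, y ≤ x)) →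
    ∃ D : Set P, D.Nonempty ∧ DirectedOn (· ≤ ·) D ∧ (∀ d ∈ D, ∃ i, d ∈ F i) ∧
      ∀ i, ∃ d ∈ D, d ∈ F i

/-- TASK C2.  If compact subsets of open sets `V` lie in the upper closure of finite subsets of `V`,
then a locally compact Scott space of a dcpo is sober. -/
def TaskC2 : Prop :=
  ∀ (P : Type) [PartialOrder P] [TopologicalSpace P] [Topology.IsScott P Set.univ],
    (∀ d : Set P, d.Nonempty → DirectedOn (· ≤ ·) d → ∃ x, IsLUB d x) →
    LocallyCompactSpace P →
    (∀ (K V : Set P), IsCompact K → IsOpen V → K ⊆ V →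
      ∃ H : Finset P, (∀ h ∈ H, h ∈ V) ∧ ∀ x ∈ K, ∃ h ∈ H, h ≤ x) →
    QuasiSober P ∧ T0Space P

end Pool.Agent.H753R3.SC
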