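import Pool.Agent.H753R3.SC.Stmts

/-! Statements for the project H753-SC (MP_dd23d5_gt, partial: countable traces). -/

set_option autoImplicit false

namespace Pool.Agent.H753R3.SC

open Set

/-- TASK B2.  `B` with countable traces `B ∩ Iic x`, such that open sets are upper closures of
their points in `B`. -/
def TaskB2 : Prop :=
  ∀ (P : Type) [PartialOrder P] [TopologicalSpace P] [Topology.IsScott P Set.univ],
    (∀ d : Set P, d.Nonempty → DirectedOn (· ≤ ·) d → ∃ x, IsLUB d x) →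
    LocallyCompactSpace P →
    ∀ B : Set P, (∀ x, (B ∩ Set.Iic x).Countable) →
    (∀ V : Set P, IsOpen V → ∀ x ∈ V, ∃ b ∈ B ∩ V, b ≤ x) →
    ∀ (K V : Set P), IsCompact K → IsOpen V → K ⊆ V →
    ∃ H : Finset P, (∀ h ∈ H, h ∈ V) ∧ ∀ x ∈ K, ∃ h ∈ H, h ≤ x

end Pool.Agent.H753R3.SC
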